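import Pool.Agent.W5h68.PJ.ConeThm
import Pool.Agent.W5h68.PJ.FormDefs

/-!
# Read-once formulas and coordinate subspaces
-/

set_option autoImplicit false

open MvPolynomial Pool.Agent.W5h68.SP Pool.Agent.Z125.UN

namespace Pool.Agent.W5h68.PJ

variable {k : Type} [Field k] {Q : (A : Type) → [CommRing A] → [Algebra k A] → Prop}

/-- good polynomials: semi-invariant, and the fibres have the property -/
structure Good (Q : (A : Type) → [CommRing A] → [Algebra k A] → Prop) {σ : Type}
    (f : MvPolynomial σ k) : Prop where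
  fin : Finite σ
  semi : ∃ d : ℕ, 0 < d ∧ Semi f d
  fib : Fib Q (fun _ : Unit => f)

lemma one_rel {τ : Type} (g : MvPolynomial τ k) (c : Unit → k) :
    (Set.range fun i : Unit => g - C (c i)) = {g - C (c ())} := by
  ext x
  constructor
  · rintro ⟨⟨⟩, rfl⟩
    rfl
  · intro h
    exact ⟨(), (Set.mem_singleton_iff.mp h).symm⟩

lemma good_auto (hQ : ClK k Q) {σ τ : Type} [Finite τ] (e : MvPolynomial σ k ≃ₐ[k] MvPolynomial τ k)
    {f : MvPolynomial σ k} (hf : Good Q f) : Good Q (e f) := by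
  obtain ⟨h1, ⟨d, hd, h2⟩, h3⟩ := hf
  refine ⟨inferInstance, ⟨d, hd, semi_auto e h2⟩, fun c hc => ?_⟩
  have h4 := h3 c hc
  have h5 : Ideal.span (Set.range fun i : Unit => e f - C (c i)) =
      (Ideal.span (Set.range fun i : Unit => f - C (c i))).map
        (e : MvPolynomial σ k →+* MvPolynomial τ k) := by
    rw [one_rel, one_rel, Ideal.map_span, Set.image_singleton]
    congr 2
    change _ = e (f - C (c ()))
    have h6 : e (C (c ())) = C (c ()) := e.commutes _
    rw [map_sub, h6]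
  exact hQ.iso (Ideal.quotientEquivAlg _ _ e h5) h4

lemma q_mv (hQ : Cl k Q) (σ : Type) [Finite σ] : Q (MvPolynomial σ k) := by
  have h : ∀ m : ℕ, Q (MvPolynomial (Fin m) k) := by
    intro m
    induction m with
    | zero => exact hQ.iso (isEmptyAlgEquiv k (Fin 0)).symm hQ.base
    | succ m ih =>
      have : Algebra.FiniteType k (Polynomial (MvPolynomial (Fin m) k)) :=
        Algebra.FiniteType.trans (S := MvPolynomial (Fin m) k) inferInstance inferInstance
      exact hQ.iso (finSuccEquiv k m).symm (hQ.poly ih)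
  have := Fintype.ofFinite σ
  exact hQ.iso (renameEquiv k (Fintype.equivFin σ)).symm (h _)

lemma good_zero (hQ : ClK k Q) (σ : Type) [Finite σ] : Good Q (0 : MvPolynomial σ k) := by
  refine ⟨inferInstance, ⟨1, one_pos, fun B _ _ s => ⟨AlgEquiv.refl, by simp⟩⟩, fun c hc => ?_⟩
  rw [one_rel, zero_sub]
  rcases hc () with h | h
  · rw [h, C_0, neg_zero, Ideal.span_singleton_zero]
    exact hQ.iso (AlgEquiv.quotientBot k (MvPolynomial σ k)).symm (q_mv hQ.toCl σ)
  · refine hQ.zero ?_
    rw [Ideal.Quotient.subsingleton_iff, h, C_1, Ideal.span_singleton_neg, Ideal.span_singleton_one]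

variable {n : ℕ} (hQ : ClK k Q)
  (hn : ∀ (A : Type) [CommRing A] [Algebra k A] [Algebra.FiniteType k A], ringKrullDim A ≤ n → Q A)

include hn in
lemma good_var : Good Q (X () : MvPolynomial Unit k) := by
  refine ⟨inferInstance, ⟨1, Nat.one_pos, semi_var⟩, fun c hc => hn _ ?_⟩
  rw [one_rel]
  have h1 : ringKrullDim (MvPolynomial Unit k ⧸
      Ideal.span {(X () - C (c ()) : MvPolynomial Unit k)}) ≤ ringKrullDim k := by
    refine ringKrullDim_le_of_surjective (algebraMap k _) ?_
    intro x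
    obtain ⟨p, rfl⟩ := Ideal.Quotient.mk_surjective x
    induction p using MvPolynomial.induction_on with
    | C a => exact ⟨a, rfl⟩
    | add p q hp hq =>
      obtain ⟨a, ha⟩ := hp
      obtain ⟨b, hb⟩ := hq
      exact ⟨a + b, by rw [map_add, map_add, ha, hb]⟩
    | mul_X p v hp =>
      obtain ⟨a, ha⟩ := hp
      refine ⟨a * c (), ?_⟩
      have h3 : Ideal.Quotient.mk (Ideal.span {(X () - C (c ()) : MvPolynomial Unit k)})
          (X v - C (c ())) = 0 :=
        Ideal.Quotient.eq_zero_iff_mem.mpr (Ideal.subset_span rfl)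
      rw [map_sub, sub_eq_zero] at h3
      rw [map_mul, map_mul, ha, h3]
      rfl
  refine h1.trans ?_
  rw [ringKrullDim_eq_zero_of_field]
  exact_mod_cast Nat.zero_le n

include hQ hn in
lemma good_gate {r : ℕ} (hr : r ≤ n + 1) (σ : Fin r → Type) (f : ∀ i, MvPolynomial (σ i) k)
    (hf : ∀ i, Good Q (f i)) (h : MvPolynomial (Fin r) k) (w : Fin r → ℤ) (e : ℤ)
    (hw : IsWeightedHomogeneous w h e) (he : e ≠ 0) (h0 : h ≠ 0) :
    Good Q (aeval (fun i => rename (Sigma.mk i) (f i)) h) := by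
  have h1 := fun i => (hf i).fin
  have h2 := fun i => (hf i).semi
  have h3 := fun i => (hf i).fib
  choose d hd h4 using h2
  have hfin : Finite (Σ i, σ i) := inferInstance
  refine ⟨hfin, ?_, fun c hc => ?_⟩
  · -- the degree
    have h5 := semi_gate (f := f) h4 hw
    refine ⟨(((∏ i, d i : ℕ) * e : ℤ)).natAbs, ?_, ?_⟩
    · rw [Int.natAbs_pos]
      refine mul_ne_zero ?_ he
      exact_mod_cast (Finset.prod_pos fun i _ => hd i).ne'
    · rcases Int.natAbs_eq ((∏ i, d i : ℕ) * e : ℤ) with h6 | h6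
      · rw [← h6]
        exact h5
      · have h7 := semi_zpow h5 (-1)
        rw [neg_one_mul] at h7
        have h8 : ((((∏ i, d i : ℕ) * e : ℤ).natAbs : ℕ) : ℤ) = -((∏ i, d i : ℕ) * e : ℤ) := by
          omega
        rw [h8]
        exact h7
  · -- the fibres
    have h5 : h - C (c ()) ≠ 0 := by
      intro h6
      have h7 : h = C (c ()) := sub_eq_zero.mp h6
      rcases eq_or_ne (c ()) 0 with h8 | h8
      · rw [h8, C_0] at h7
        exact h0 h7
      · have h9 : coeff 0 h ≠ 0 := by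
          rw [h7, coeff_zero_C]
          exact h8
        have h10 := hw h9
        rw [map_zero] at h10
        exact he h10.symm
    have h6 : ringKrullDim (MvPolynomial (Fin r) k ⧸ Ideal.span {h - C (c ())}) ≤ n := by
      rcases r with _ | r
      · -- no variables
        exfalso
        have h7 : h ≠ C (coeff 0 h) := by
          intro h8
          have h9 : coeff 0 h ≠ 0 := by
            intro h10
            rw [h10, C_0] at h8
            exact h0 h8
          have h10 := hw h9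
          rw [map_zero] at h10
          exact he h10.symm
        exact h7 (eq_C_of_isEmpty h)
      · have h7 : Ideal.span {h - C (c ())} ≠ ⊥ := by
          rw [Ne, Ideal.span_singleton_eq_bot]
          exact h5
        refine (dim_quot _ h7).trans ?_
        have h8 : r ≤ n := by omega
        exact_mod_cast h8
    have h7 := q_inverse hQ (fib_tup hQ σ h1 f h3) (multi_tup h4) hn hd {h - C (c ())} h6
    have h8 : Ideal.span (Set.range fun i : Unit => aeval (tup f) h - C (c i)) =
        Ideal.span (aeval (tup f) '' {h - C (c ())}) := by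
      rw [one_rel, Set.image_singleton, map_sub]
      congr 3
      exact ((aeval (tup f)).commutes (c ())).symm
    exact hQ.iso (Ideal.quotientEquivAlgOfEq k h8).symm h7

section restr

variable {σ τ : Type}

open Classical in
/-- the restriction to a coordinate subspace -/
noncomputable def restr (T : Set σ) : MvPolynomial σ k →ₐ[k] MvPolynomial {l : σ // l ∉ T} k :=
  aeval fun l => if h : l ∈ T then 0 else X ⟨l, h⟩

lemma restr_mem (T : Set σ) {l : σ} (h : l ∈ T) : restr (k := k) T (X l) = 0 := by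
  rw [restr, aeval_X, dif_pos h]

lemma restr_not (T : Set σ) {l : σ} (h : l ∉ T) : restr (k := k) T (X l) = X ⟨l, h⟩ := by
  rw [restr, aeval_X, dif_neg h]

lemma restr_whom (T : Set σ) {v : σ → ℕ} {f : MvPolynomial σ k} {m : ℕ}
    (hf : IsWeightedHomogeneous v f m) : IsWeightedHomogeneous (fun l : {l : σ // l ∉ T} => v l.1)
      (restr T f) m := by
  classical
  refine whom_aeval (fun l => ?_) hf
  by_cases h : l ∈ T
  · rw [dif_pos h]
    exact isWeightedHomogeneous_zero _ _ _
  · rw [dif_neg h]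
    exact isWeightedHomogeneous_X _ _ (⟨l, h⟩ : {l : σ // l ∉ T})

/-- hereditarily good polynomials -/
def HG (Q : (A : Type) → [CommRing A] → [Algebra k A] → Prop) {σ : Type}
    (f : MvPolynomial σ k) : Prop :=
  ∀ T : Set σ, Good Q (restr T f)

include hQ hn in
lemma hg_var : HG Q (X () : MvPolynomial Unit k) := by
  intro T
  by_cases h : () ∈ T
  · rw [restr_mem T h]
    exact good_zero hQ _
  · let e : Unit ≃ {l : Unit // l ∉ T} :=
      ⟨fun _ => ⟨(), h⟩, fun _ => (), fun _ => rfl, fun _ => rfl⟩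
    have h1 : restr (k := k) T (X ()) = renameEquiv k e (X ()) := by
      rw [restr_not T h]
      change _ = rename e (X ())
      rw [rename_X]
    rw [h1]
    exact good_auto hQ _ (good_var hn)

include hQ in
lemma hg_names (e : σ ≃ τ) {f : MvPolynomial σ k} (hf : HG Q f) : HG Q (rename e f) := by
  intro T
  let e' : {l : σ // l ∉ e ⁻¹' T} ≃ {m : τ // m ∉ T} := e.subtypeEquiv fun a => Iff.rfl
  have h1 : restr T (rename e f) = renameEquiv k e' (restr (e ⁻¹' T) f) := by
    have h2 : (restr T).comp (rename e) = ((renameEquiv k e').toAlgHom).comp (restr (e ⁻¹' T)) := by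
      apply MvPolynomial.algHom_ext
      intro l
      change restr T (rename e (X l)) = rename e' (restr (e ⁻¹' T) (X l))
      rw [rename_X]
      by_cases h : e l ∈ T
      · rw [restr_mem T h, restr_mem (e ⁻¹' T) h, map_zero]
      · rw [restr_not T h, restr_not (e ⁻¹' T) h, rename_X]
        rfl
    exact congrArg (fun φ : MvPolynomial σ k →ₐ[k] _ => φ f) h2
  rw [h1]
  have h2 := (hf (e ⁻¹' T)).fin
  have h3 : Finite {m : τ // m ∉ T} := Finite.of_equiv _ e'
  exact good_auto hQ _ (hf (e ⁻¹' T))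

/-- the index set of the restricted tuple -/
def sgE {r : ℕ} (σ : Fin r → Type) (T : Set (Σ i, σ i)) :
    (Σ i, {l : σ i // l ∉ {l | (⟨i, l⟩ : Σ i, σ i) ∈ T}}) ≃ {p : Σ i, σ i // p ∉ T} where
  toFun p := ⟨⟨p.1, p.2.1⟩, p.2.2⟩
  invFun p := ⟨p.1.1, ⟨p.1.2, p.2⟩⟩
  left_inv _ := rfl
  right_inv _ := rfl

/-- the restricted tuple -/
noncomputable def rtup {r : ℕ} {σ : Fin r → Type} (f : ∀ i, MvPolynomial (σ i) k)
    (T : Set (Σ i, σ i)) (i : Fin r) :
    MvPolynomial {l : σ i // l ∉ {l | (⟨i, l⟩ : Σ i, σ i) ∈ T}} k :=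
  restr {l | (⟨i, l⟩ : Σ i, σ i) ∈ T} (f i)

lemma restr_tup {r : ℕ} {σ : Fin r → Type} (f : ∀ i, MvPolynomial (σ i) k) (T : Set (Σ i, σ i))
    (h : MvPolynomial (Fin r) k) : restr T (aeval (tup f) h) =
      rename (sgE σ T) (aeval (tup (rtup f T)) h) := by
  have h2 : (restr T).comp (aeval (tup f)) = (rename (sgE σ T)).comp (aeval (tup (rtup f T))) := by
    apply MvPolynomial.algHom_ext
    intro i
    rw [AlgHom.comp_apply, AlgHom.comp_apply, aeval_X, aeval_X]
    have h3 : (restr (k := k) T).comp (rename (Sigma.mk i)) =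
        ((rename (sgE σ T)).comp (rename (Sigma.mk i))).comp
          (restr {l | (⟨i, l⟩ : Σ i, σ i) ∈ T}) := by
      apply MvPolynomial.algHom_ext
      intro l
      change restr T (rename (Sigma.mk i) (X l)) = rename (sgE σ T) (rename (Sigma.mk i)
        (restr {l | (⟨i, l⟩ : Σ i, σ i) ∈ T} (X l)))
      rw [rename_X]
      by_cases h : (⟨i, l⟩ : Σ i, σ i) ∈ T
      · rw [restr_mem T h, restr_mem {l | (⟨i, l⟩ : Σ i, σ i) ∈ T} h, map_zero, map_zero]
      · rw [restr_not T h, restr_not {l | (⟨i, l⟩ : Σ i, σ i) ∈ T} h, rename_X, rename_X]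
        rfl
    exact congrArg (fun φ : MvPolynomial (σ i) k →ₐ[k] _ => φ (f i)) h3
  exact congrArg (fun φ : MvPolynomial (Fin r) k →ₐ[k] _ => φ h) h2

include hQ hn in
lemma hg_gate {r : ℕ} (hr : r ≤ n + 1) (σ : Fin r → Type) (f : ∀ i, MvPolynomial (σ i) k)
    (hf : ∀ i, HG Q (f i)) (h : MvPolynomial (Fin r) k) (w : Fin r → ℤ) (e : ℤ)
    (hw : IsWeightedHomogeneous w h e) (he : e ≠ 0) (h0 : h ≠ 0) :
    HG Q (aeval (fun i => rename (Sigma.mk i) (f i)) h) := by
  intro T
  have h1 : restr T (aeval (fun i => rename (Sigma.mk i) (f i)) h) =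
      renameEquiv k (sgE σ T) (aeval (tup (rtup f T)) h) := restr_tup f T h
  rw [h1]
  have h2 : Good Q (aeval (tup (rtup f T)) h) :=
    good_gate hQ hn hr _ (rtup f T) (fun i => hf i _) h w e hw he h0
  have h3 := h2.fin
  have h4 : Finite {p : Σ i, σ i // p ∉ T} := Finite.of_equiv _ (sgE σ T)
  exact good_auto hQ _ h2

include hQ hn in
/-- **Formulas are hereditarily good.** -/
theorem formula_hg {σ : Type} {f : MvPolynomial σ k} (hf : Formula k n σ f) : HG Q f := by
  induction hf with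
  | var => exact hg_var hQ hn
  | names e f hf ih => exact hg_names hQ e ih
  | gate hr σ f hf h w e hw he h0 ih => exact hg_gate hQ hn hr σ f ih h w e hw he h0

end restr

/-- coordinate sections -/
lemma cn_restr {σ : Type} (S : Set (MvPolynomial σ k)) (T : Set σ) :
    Nonempty (Cn (S ∪ X '' T) ≃ₐ[k] Cn (restr T '' S)) := by
  let π : MvPolynomial σ k →ₐ[k] Cn (S ∪ X '' T) := Ideal.Quotient.mkₐ k _
  let ρ : MvPolynomial {l : σ // l ∉ T} k →ₐ[k] Cn (restr T '' S) := Ideal.Quotient.mkₐ k _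
  have hπ0 : ∀ g ∈ S ∪ X '' T, π g = 0 := fun g hg =>
    Ideal.Quotient.eq_zero_iff_mem.mpr (Ideal.subset_span hg)
  have hρ0 : ∀ g ∈ S, ρ (restr T g) = 0 := fun g hg =>
    Ideal.Quotient.eq_zero_iff_mem.mpr (Ideal.subset_span ⟨g, hg, rfl⟩)
  obtain ⟨F, hF⟩ := quot_lift (S ∪ X '' T) (ρ.comp (restr T)) (fun g hg => by
    rcases hg with hg | ⟨l, hl, rfl⟩
    · exact hρ0 g hg
    · rw [AlgHom.comp_apply, restr_mem T hl, map_zero])
  have h1 : (aeval fun l : {l : σ // l ∉ T} => π (X l.1)).comp (restr T) = π := by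
    apply MvPolynomial.algHom_ext
    intro l
    rw [AlgHom.comp_apply]
    by_cases h : l ∈ T
    · rw [restr_mem T h, map_zero, hπ0 _ (Or.inr ⟨l, h, rfl⟩)]
    · rw [restr_not T h, aeval_X]
  have h1' : ∀ g, aeval (fun l : {l : σ // l ∉ T} => π (X l.1)) (restr T g) = π g := fun g =>
    congrArg (fun φ : MvPolynomial σ k →ₐ[k] _ => φ g) h1
  obtain ⟨G, hG⟩ := quot_lift (restr T '' S) (aeval fun l : {l : σ // l ∉ T} => π (X l.1))
    (fun g hg => by
      obtain ⟨g, hg, rfl⟩ := hg
      rw [h1', hπ0 _ (Or.inl hg)])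
  refine ⟨AlgEquiv.ofAlgHom F G ?_ ?_⟩
  · apply Ideal.Quotient.algHom_ext
    apply MvPolynomial.algHom_ext
    intro l
    change F (G (Ideal.Quotient.mk _ (X l))) = ρ (X l)
    rw [hG, aeval_X]
    change F (Ideal.Quotient.mk _ (X l.1)) = _
    rw [hF, AlgHom.comp_apply, restr_not T l.2]
  · apply Ideal.Quotient.algHom_ext
    apply MvPolynomial.algHom_ext
    intro l
    change G (F (Ideal.Quotient.mk _ (X l))) = π (X l)
    rw [hF]
    change G (Ideal.Quotient.mk _ (restr T (X l))) = _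
    rw [hG, h1']

lemma tup_whom {r : ℕ} {τ : Fin r → Type} (g : ∀ i, MvPolynomial (τ i) k) {v : ∀ i, τ i → ℕ}
    (i : Fin r) {m : ℕ} (h : IsWeightedHomogeneous (v i) (g i) m) :
    IsWeightedHomogeneous (fun p : Σ i, τ i => v p.1 p.2) (tup g i) m := by
  have h6 := whom_aeval (k := k) (v := fun p : Σ i, τ i => v p.1 p.2)
    (g := fun l => X (⟨i, l⟩ : Σ i, τ i)) (fun l => isWeightedHomogeneous_X _ _ _) h
  have h7 : (aeval fun l => (X (⟨i, l⟩ : Σ i, τ i) : MvPolynomial (Σ i, τ i) k)) =
      rename (R := k) (Sigma.mk i) := by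
    apply MvPolynomial.algHom_ext
    intro l
    rw [aeval_X, rename_X]
  rw [h7] at h6
  exact h6

include hQ hn in
/-- **Coordinate sections of weighted cones over systems of equations between formulas.** -/
theorem section_good {r : ℕ} {σ : Fin r → Type} {f : ∀ i, MvPolynomial (σ i) k}
    (hf : ∀ i, Formula k n (σ i) (f i)) {v : ∀ i, σ i → ℕ} {w : Fin r → ℕ} (hw : ∀ i, 0 < w i)
    (hv : ∀ i, IsWeightedHomogeneous (v i) (f i) (w i)) {S : Set (MvPolynomial (Fin r) k)}
    (hS : ∀ h ∈ S, ∃ m, IsWeightedHomogeneous w h m)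
    (hdim : ringKrullDim (MvPolynomial (Fin r) k ⧸ Ideal.span S) ≤ (n + 1 : ℕ))
    (T : Set (Σ i, σ i)) : Q (Cn (aeval (tup f) '' S ∪ X '' T)) := by
  have h1 : ∀ i, Good Q (rtup f T i) := fun i => formula_hg hQ hn (hf i) _
  have h2 := fun i => (h1 i).fin
  have h3 := fun i => (h1 i).semi
  choose d hd h4 using h3
  have h5 : ∀ i, IsWeightedHomogeneous (fun p : Σ i, {l : σ i // l ∉ {l | (⟨i, l⟩ : Σ i, σ i) ∈ T}} =>
      v p.1 p.2.1) (tup (rtup f T) i) (w i) := by
    exact fun i => tup_whom (rtup f T) (v := fun i l => v i l.1) i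
      (restr_whom {l | (⟨i, l⟩ : Σ i, σ i) ∈ T} (hv i))
  have h6 := cone_good hQ hn h2 (fun i => (h1 i).fib) hd h4 hw h5 hS hdim
  obtain ⟨e1⟩ := cn_restr (aeval (tup f) '' S) T
  have h7 : Ideal.span (restr T '' (aeval (tup f) '' S)) =
      (Ideal.span (aeval (tup (rtup f T)) '' S)).map (renameEquiv k (sgE σ T) : _ →+* _) := by
    rw [Ideal.map_span, Set.image_image, Set.image_image]
    congr 1
    refine Set.image_congr fun h _ => ?_
    exact restr_tup f T h
  have hfin : Finite (Σ i, {l : σ i // l ∉ {l | (⟨i, l⟩ : Σ i, σ i) ∈ T}}) := inferInstance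
  have hfin2 : Finite {p : Σ i, σ i // p ∉ T} := Finite.of_equiv _ (sgE σ T)
  have h8 : Q (Cn (restr T '' (aeval (tup f) '' S))) :=
    hQ.iso (Ideal.quotientEquivAlg _ _ (renameEquiv k (sgE σ T)) h7) h6
  exact hQ.iso e1.symm h8

end Pool.Agent.W5h68.PJ
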