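import Pool.Agent.W5h68.PJ.Chart

/-!
# The strata of projective schemes
-/

set_option autoImplicit false

open CategoryTheory AlgebraicGeometry MvPolynomial TopologicalSpace Limits
  Pool.Agent.Y116.UV Pool.Agent.W5h68.SP

namespace Pool.Agent.W5h68.PJ

/-- The property `P` of separated schemes of finite type over `k` is invariant under isomorphisms, true
for the empty scheme and closed under closed-open decompositions (two out of three). -/
structure ClS (k : Type) [Field k] (P : Sch k → Prop) : Prop where
  iso : ∀ {X Y : Sch k}, FT True X → Nonempty (X ≅ Y) → P X → P Y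
  total : ∀ {Z X U : Sch k} (i : Z ⟶ X) (j : U ⟶ X), FT True X → IsTriple i j → P Z → P U → P X
  opened : ∀ {Z X U : Sch k} (i : Z ⟶ X) (j : U ⟶ X), FT True X → IsTriple i j → P Z → P X → P U
  closed : ∀ {Z X U : Sch k} (i : Z ⟶ X) (j : U ⟶ X), FT True X → IsTriple i j → P X → P U → P Z
  empty : P (aff k PUnit)

variable {k : Type} [Field k] {P : Sch k → Prop} (hP : ClS k P)

section red

variable {A : Type} [CommRing A] [Algebra k A] [Algebra.FiniteType k A]

/-- the zero ring -/
noncomputable def toZero (k A : Type) [Field k] [CommRing A] [Algebra k A] : A →ₐ[k] PUnit.{1} where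
  toFun _ := PUnit.unit
  map_one' := rfl
  map_mul' _ _ := rfl
  map_zero' := rfl
  map_add' _ _ := rfl
  commutes' _ := rfl

instance empty_left : IsEmpty (aff k PUnit.{1}).left :=
  inferInstanceAs (IsEmpty (PrimeSpectrum PUnit))

lemma triple_empty {Z X : Sch k} (i : Z ⟶ X) (hi : IsClosedImmersion i.left)
    (h : Set.range i.left = Set.univ) (j : aff k PUnit.{1} ⟶ X) : IsTriple i j where
  closed := hi
  opened := inferInstance
  compl := by
    rw [h]
    have h1 : Set.range j.left = ∅ := Set.range_eq_empty _
    rw [h1, Set.compl_empty]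

include hP in
lemma red_le {I J : Ideal A} (h : I ≤ J) (hJ : J ≤ I.radical) :
    P (aff k (A ⧸ I)) ↔ P (aff k (A ⧸ J)) := by
  let f : (A ⧸ I) →ₐ[k] (A ⧸ J) := Ideal.Quotient.factorₐ k h
  have hf : Function.Surjective f := Ideal.Quotient.factor_surjective h
  have h1 : Set.range (affMap f).left = Set.univ := by
    refine (range_affMap f hf).trans (Set.eq_univ_of_forall fun x a ha => ?_)
    obtain ⟨a, rfl⟩ := Ideal.Quotient.mk_surjective a
    have h2 : a ∈ J := Ideal.Quotient.eq_zero_iff_mem.mp ha
    obtain ⟨n, hn⟩ := hJ h2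
    refine x.2.mem_of_pow_mem n ?_
    rw [← map_pow, Ideal.Quotient.eq_zero_iff_mem.mpr hn]
    exact x.asIdeal.zero_mem
  have h2 : IsTriple (affMap f) (affMap (toZero k (A ⧸ I))) :=
    triple_empty _ (closed_affMap f hf) h1 _
  exact ⟨fun h => hP.closed _ _ (ft_aff True) h2 h hP.empty,
    fun h => hP.total _ _ (ft_aff True) h2 h hP.empty⟩

include hP in
lemma red_iff {I J : Ideal A} (h : PrimeSpectrum.zeroLocus (I : Set A) =
    PrimeSpectrum.zeroLocus (J : Set A)) : P (aff k (A ⧸ I)) ↔ P (aff k (A ⧸ J)) := by
  have h1 : I.radical = J.radical := by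
    rw [← PrimeSpectrum.vanishingIdeal_zeroLocus_eq_radical, h,
      PrimeSpectrum.vanishingIdeal_zeroLocus_eq_radical]
  rw [red_le hP (Ideal.le_radical (I := I)) le_rfl, red_le hP (Ideal.le_radical (I := J)) le_rfl, h1]

include hP in
/-- closed subschemes of affine schemes depend only on the support -/
lemma closed_iff {Y : Sch k} (c : Y ⟶ aff k A) (hc : IsClosedImmersion c.left) {I : Ideal A}
    (h : Set.range c.left = PrimeSpectrum.zeroLocus (I : Set A)) (hI : P (aff k (A ⧸ I))) : P Y := by
  obtain ⟨J, e, he⟩ := IsClosedImmersion.Spec_iff.mp hc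
  have h1 : Y ≅ aff k (A ⧸ J) := Over.isoMk e (by
    have h2 := Over.w c
    rw [he] at h2
    rw [← h2]
    change e.hom ≫ Spec.map _ = (e.hom ≫ Spec.map _) ≫ Spec.map _
    rw [Category.assoc, ← Spec.map_comp, ← CommRingCat.ofHom_comp])
  have h2 : Set.range c.left = PrimeSpectrum.zeroLocus (J : Set A) := by
    rw [he]
    have h3 : Set.range (e.hom ≫ Spec.map (CommRingCat.ofHom (Ideal.Quotient.mk J))) =
        Set.range (Spec.map (CommRingCat.ofHom (Ideal.Quotient.mk J))) := by
      change Set.range ((Spec.map (CommRingCat.ofHom (Ideal.Quotient.mk J))) ∘ e.hom) = _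
      exact Function.Surjective.range_comp e.hom.homeomorph.surjective _
    refine h3.trans ?_
    have h4 := range_comap_of_surjective (A ⧸ J) (Ideal.Quotient.mk J)
      Ideal.Quotient.mk_surjective
    rw [Ideal.mk_ker] at h4
    exact h4
  have h3 := (red_iff hP (h.symm.trans h2)).mp hI
  exact hP.iso (ft_aff True) ⟨h1.symm⟩ h3

end red

section strata

variable {σ : Type}

/-- the standard covering -/
lemma cover (x : (space k σ).left) : ∃ i : σ, x ∈ Dp (X i : MvPolynomial σ k) := by
  have h1 : Algebra.adjoin (gr k σ 0) (Set.range (X : σ → MvPolynomial σ k)) = ⊤ := by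
    rw [eq_top_iff]
    intro p _
    induction p using MvPolynomial.induction_on with
    | C c =>
      have h2 : (C c : MvPolynomial σ k) = algebraMap (gr k σ 0) _ ⟨C c, isHomogeneous_C _ c⟩ := rfl
      rw [h2]
      exact Subalgebra.algebraMap_mem _ _
    | add p q hp hq => exact Subalgebra.add_mem _ (hp trivial) (hq trivial)
    | mul_X p j hp =>
      have h2 : (X j : MvPolynomial σ k) ∈
          Algebra.adjoin (gr k σ 0) (Set.range (X : σ → MvPolynomial σ k)) :=
        Algebra.subset_adjoin ⟨j, rfl⟩
      exact Subalgebra.mul_mem _ (hp trivial) h2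
  have h2 := Proj.iSup_basicOpen_eq_top' (gr k σ) (X : σ → MvPolynomial σ k)
    (fun i => ⟨1, x_mem i⟩) h1
  have h3 : x ∈ (⨆ i, Proj.basicOpen (gr k σ) (X i) : (Proj (gr k σ)).Opens) := by
    rw [h2]
    trivial
  exact Opens.mem_iSup.mp h3

lemma iso_empty (X : Sch k) [IsEmpty X.left] : Nonempty (aff k PUnit.{1} ≅ X) := by
  have h1 : IsInitial (aff k PUnit.{1}).left := isInitialOfIsEmpty
  have h2 : IsInitial X.left := isInitialOfIsEmpty
  exact ⟨Over.isoMk (h1.uniqueUpToIso h2) (h1.hom_ext _ _)⟩

/-- the fibre product as a scheme over `k` -/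
noncomputable def fib {X Y Z : Sch k} (f : X ⟶ Z) (g : Y ⟶ Z) : Sch k :=
  Over.mk (pullback.fst f.left g.left ≫ X.hom)

/-- first projection -/
noncomputable def fibFst {X Y Z : Sch k} (f : X ⟶ Z) (g : Y ⟶ Z) : fib f g ⟶ X :=
  Over.homMk (pullback.fst f.left g.left) rfl

/-- second projection -/
noncomputable def fibSnd {X Y Z : Sch k} (f : X ⟶ Z) (g : Y ⟶ Z) : fib f g ⟶ Y :=
  Over.homMk (pullback.snd f.left g.left) (by
    have h1 : pullback.snd f.left g.left ≫ Y.hom = pullback.fst f.left g.left ≫ X.hom := by
      rw [← Over.w f, ← Over.w g, ← Category.assoc, ← Category.assoc, pullback.condition]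
    exact h1)

include hP in
lemma strata_list {S : Set (MvPolynomial σ k)} (hS : ∀ g ∈ S, ∃ m, 0 < m ∧ g.IsHomogeneous m)
    (h : ∀ (T : Set σ) (i : σ), i ∉ T →
      P (aff k (Dh k i ⧸ Ideal.span (Ideal.Quotient.mk _ '' (S ∪ X '' T))))) [Finite σ] (l : List σ) :
    ∀ T : Set σ, (∀ i, i ∈ T ∨ i ∈ l) → ∀ {Z : Sch k} (f : Z ⟶ space k σ), FT True Z →
      Supp (S ∪ X '' T) f → P Z := by
  induction l with
  | nil =>
    intro T hT Z f _ hf
    have h1 : IsEmpty Z.left := by
      refine ⟨fun z => ?_⟩
      obtain ⟨i, hi⟩ := cover (f.left z)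
      have h2 : f.left z ∈ Set.range f.left := ⟨z, rfl⟩
      rw [hf.range] at h2
      have h3 := h2 (X i) (Or.inr ⟨i, by simpa using hT i, rfl⟩)
      exact h3 hi
    exact hP.iso (ft_aff True) (iso_empty Z) hP.empty
  | cons i l ih =>
    intro T hT Z f hZ hf
    by_cases hi : i ∈ T
    · refine ih T (fun j => ?_) f hZ hf
      rcases hT j with h1 | h1
      · exact Or.inl h1
      · rcases List.mem_cons.mp h1 with h1 | h1
        · left
          rw [h1]
          exact hi
        · exact Or.inr h1
    · let V : Z.left.Opens := f.left ⁻¹ᵁ Dp (X i)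
      have hcl := hf.closed
      have h1 : IsTriple (cloMap Z V) (fibFst f (chart k i)) := by
        refine ⟨inferInstance, ?_, ?_⟩
        · change IsOpenImmersion (pullback.fst f.left (chart k i).left)
          infer_instance
        · rw [range_cloMap]
          congr 1
          change _ = Set.range (pullback.fst f.left (chart k i).left)
          rw [Scheme.Pullback.range_fst, range_chart]
          rfl
      refine hP.total _ _ hZ h1 ?_ ?_
      · -- the hyperplane section
        refine ih (insert i T) (fun j => ?_) (cloMap Z V ≫ f) (ft_clo hZ) ⟨?_, ?_⟩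
        · rcases hT j with h1 | h1
          · exact Or.inl (Or.inr h1)
          · rcases List.mem_cons.mp h1 with h1 | h1
            · exact Or.inl (Or.inl h1)
            · exact Or.inr h1
        · change IsClosedImmersion ((cloMap Z V).left ≫ f.left)
          infer_instance
        · have h2 : Set.range (cloMap Z V ≫ f).left = f.left '' Set.range (cloMap Z V).left := by
            change Set.range ((cloMap Z V).left ≫ f.left) = _
            rw [← Set.range_comp]
            rfl
          rw [h2, range_cloMap]
          ext x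
          constructor
          · rintro ⟨z, hz, rfl⟩ g hg
            have h3 : f.left z ∈ Set.range f.left := ⟨z, rfl⟩
            rw [hf.range] at h3
            rcases hg with hg | ⟨j, hj, rfl⟩
            · exact h3 g (Or.inl hg)
            · rcases hj with rfl | hj
              · exact hz
              · exact h3 _ (Or.inr ⟨j, hj, rfl⟩)
          · intro hx
            have h3 : x ∈ Set.range f.left := by
              rw [hf.range]
              intro g hg
              refine hx g ?_
              rcases hg with hg | ⟨j, hj, rfl⟩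
              · exact Or.inl hg
              · exact Or.inr ⟨j, Or.inr hj, rfl⟩
            obtain ⟨z, rfl⟩ := h3
            exact ⟨z, hx (X i) (Or.inr ⟨i, Or.inl rfl, rfl⟩), rfl⟩
      · -- the affine part
        have hft : Algebra.FiniteType k (Dh k i) := inferInstance
        refine closed_iff hP (fibSnd f (chart k i)) ?_ ?_ (h T i hi)
        · change IsClosedImmersion (pullback.snd f.left (chart k i).left)
          infer_instance
        · change Set.range (pullback.snd f.left (chart k i).left) = _
          rw [Scheme.Pullback.range_snd, hf.range, PrimeSpectrum.zeroLocus_span]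
          ext y
          constructor
          · rintro hy _ ⟨g, hg, rfl⟩
            have h2 : ∃ m, 0 < m ∧ g.IsHomogeneous m := by
              rcases hg with hg | ⟨j, hj, rfl⟩
              · exact hS g hg
              · exact ⟨1, one_pos, isHomogeneous_X _ _⟩
            obtain ⟨m, hm, h2⟩ := h2
            by_contra h4
            exact hy g hg ((chart_mem i h2 hm y).mpr h4)
          · intro hy g hg
            have h2 : ∃ m, 0 < m ∧ g.IsHomogeneous m := by
              rcases hg with hg | ⟨j, hj, rfl⟩
              · exact hS g hg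
              · exact ⟨1, one_pos, isHomogeneous_X _ _⟩
            obtain ⟨m, hm, h2⟩ := h2
            intro h4
            exact (chart_mem i h2 hm y).mp h4 (hy ⟨g, hg, rfl⟩)

end strata

end Pool.Agent.W5h68.PJ
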